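import Pool.Agent.helper70.FI4.SpecK
import Pool.Agent.helper12.FI.Fin

set_option autoImplicit false

namespace Pool.Agent.FI4

open Pool.Agent.helper58.DC Pool.Agent.DI Pool.Agent.GR Pool.Agent.OB Pool.Agent.DR Pool.Agent.FI Pool.Agent.FI3

theorem KDV (hKRG : KRG_stmt) (hJT0 : JT0_stmt) (hLBN : LBN_stmt) : KDV_stmt := by
  intro p M hM G _ _ hop χ hχ D hD hz
  have h1 := Fin_div p hM.pr M hM.max hM.mem G hop χ hχ D hD 1 hz
  rw [pow_one] at h1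
  have h2 := hJT0 p M hM G hop χ hχ
  have h3 := hKRG p M hM G χ hχ
  have hfin : ({C : Finset (Subgroup G) | NCh p ⊤ ⊥ C}).Finite := Set.toFinite _
  have h4 : (∑ᶠ C ∈ {C : Finset (Subgroup G) | NCh p ⊤ ⊥ C},
      (-1) ^ (C.card + 1) * ((Nat.card (nrm C) : ℤ) * (lb p M χ (nrm C) : ℤ))) =
      ∑ᶠ C ∈ {C : Finset (Subgroup G) | NCh p ⊤ ⊥ C},
        (-1) ^ (C.card + 1) * ((Nat.card (nrm C) : ℤ) * (Blk M χ (nrm C)).ncard) := by
    have h5 : (((∑ᶠ C ∈ {C : Finset (Subgroup G) | NCh p ⊤ ⊥ C},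
      (-1) ^ (C.card + 1) * ((Nat.card (nrm C) : ℤ) * (lb p M χ (nrm C) : ℤ)) : ℤ)) : ℂ) =
      ((∑ᶠ C ∈ {C : Finset (Subgroup G) | NCh p ⊤ ⊥ C},
        (-1) ^ (C.card + 1) * ((Nat.card (nrm C) : ℤ) * (Blk M χ (nrm C)).ncard) : ℤ) : ℂ) := by
      rw [finsum_mem_eq_finite_toFinset_sum _ hfin, finsum_mem_eq_finite_toFinset_sum _ hfin] at h3 ⊢
      push_cast
      rw [h3]
      refine Finset.sum_congr rfl fun C _ => ?_
      rw [lb_eq_LL hLBN p M hM G (nrm C) χ]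
    exact_mod_cast h5
  rw [h4, ← h2, mul_comm (p : ℤ)]
  exact mul_dvd_mul_left _ h1

end Pool.Agent.FI4
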